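import Pool.Agent.Q324.SC.SSE

set_option autoImplicit false
set_option linter.all false

/-!
Self correction by padding: a set of words which is not changed by appending certain blocks is
decidable if some algorithm errs on few words.
-/

namespace Pool.Agent.Q252.WC

open Pool.Agent.Q324.SC

variable {α : Type} [Primcodable α]

/-- the `k`-th word made of `j` blocks of the list `L` -/
def pad (L : List (List α)) (j k : ℕ) : List α :=
  (List.range j).flatMap fun s => L.getD (dig (L.length - 1) k s) []

theorem pad_primrec (L : List (List α)) : Primrec (fun x : ℕ × ℕ => pad L x.1 x.2) := by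
  unfold pad dig
  refine pflatMap (by fun_prop) ?_
  exact (Primrec.list_getD ([] : List α)).comp (Primrec.const L) (by fun_prop)

omit [Primcodable α] in
theorem flat_inj {f g : ℕ → List α} {b : ℕ} (hf : ∀ s, (f s).length = b)
    (hg : ∀ s, (g s).length = b) : ∀ j, (List.range j).flatMap f = (List.range j).flatMap g →
      ∀ s < j, f s = g s := by
  intro j
  induction j with
  | zero => intro _ s hs; omega
  | succ j ih =>
    intro h s hs
    rw [List.range_succ, List.flatMap_append, List.flatMap_append] at h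
    simp only [List.flatMap_cons, List.flatMap_nil, List.append_nil] at h
    obtain ⟨h1, h2⟩ := List.append_inj' h (by rw [hf, hg])
    rcases Nat.lt_succ_iff_lt_or_eq.1 hs with h3 | h3
    · exact ih h1 s h3
    · rw [h3]; exact h2

omit [Primcodable α] in
theorem flat_length {f : ℕ → List α} {b : ℕ} (hf : ∀ s, (f s).length = b) :
    ∀ j, ((List.range j).flatMap f).length = j * b := by
  intro j
  induction j with
  | zero => simp
  | succ j ih =>
    rw [List.range_succ, List.flatMap_append, List.length_append, ih]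
    simp only [List.flatMap_cons, List.flatMap_nil, List.append_nil]
    rw [hf]
    ring

omit [Primcodable α] in
theorem block_mem {L : List (List α)} (h0 : 0 < L.length) (k s : ℕ) :
    L.getD (dig (L.length - 1) k s) [] ∈ L := by
  have h1 : dig (L.length - 1) k s < L.length := by
    have := dig_le (L.length - 1) k s
    omega
  rw [List.getD_eq_getElem _ _ h1]
  exact List.getElem_mem h1

omit [Primcodable α] in
theorem pad_inj {L : List (List α)} {b j k k' : ℕ} (h0 : 0 < L.length) (hL : L.Nodup)
    (hb : ∀ t ∈ L, t.length = b) (hk : k < L.length ^ j) (hk' : k' < L.length ^ j)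
    (h : pad L j k = pad L j k') : k = k' := by
  have e : L.length - 1 + 1 = L.length := by omega
  rw [← e] at hk hk'
  rw [eq_sum_dig _ j k hk, eq_sum_dig _ j k' hk']
  refine Finset.sum_congr rfl fun s hs => ?_
  rw [Finset.mem_range] at hs
  congr 1
  have h1 := flat_inj (fun s => hb _ (block_mem h0 k s)) (fun s => hb _ (block_mem h0 k' s)) j h s hs
  have h2 : dig (L.length - 1) k s < L.length := by
    have := dig_le (L.length - 1) k s
    omega
  have h3 : dig (L.length - 1) k' s < L.length := by
    have := dig_le (L.length - 1) k' s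
    omega
  rw [List.getD_eq_getElem _ _ h2, List.getD_eq_getElem _ _ h3] at h1
  exact (hL.getElem_inj_iff).1 h1

omit [Primcodable α] in
theorem pad_iff {S : List α → Prop} {L : List (List α)} (h0 : 0 < L.length)
    (hS : ∀ w, ∀ t ∈ L, (S (w ++ t) ↔ S w)) (j k : ℕ) (w : List α) :
    S (w ++ pad L j k) ↔ S w := by
  unfold pad
  induction j with
  | zero => simp
  | succ j ih =>
    rw [List.range_succ, List.flatMap_append]
    simp only [List.flatMap_cons, List.flatMap_nil, List.append_nil]
    rw [← List.append_assoc, hS _ _ (block_mem h0 k j), ih]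

/-- the choice of the number of blocks -/
theorem exists_c {q b : ℕ} {C ρ : ℝ} (hρ0 : 0 ≤ ρ) (hρ : ρ ^ b < q) :
    ∃ c : ℕ, ∀ l : ℕ, 2 * (C * ρ ^ (l + c * (l + 1) * b)) < (q : ℝ) ^ (c * (l + 1)) := by
  have hq : (0 : ℝ) < q := lt_of_le_of_lt (pow_nonneg hρ0 b) hρ
  set K : ℝ := (2 * |C| + 1) * (ρ + 1) with hK
  have hC : 0 ≤ |C| := abs_nonneg C
  have hK1 : 1 ≤ K := by rw [hK]; nlinarith
  have hK2 : 2 * |C| + 1 ≤ K := by rw [hK]; nlinarith
  have hK3 : ρ ≤ K := by rw [hK]; nlinarith
  have hK0 : 0 < K := by linarith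
  obtain ⟨c, hc⟩ := exists_pow_lt_of_lt_one (x := 1 / K) (y := ρ ^ b / q) (by positivity)
    (by rw [div_lt_one hq]; exact hρ)
  refine ⟨c, fun l => ?_⟩
  have h1 : (ρ ^ b) ^ c * K < (q : ℝ) ^ c := by
    rw [div_pow, div_lt_div_iff₀ (by positivity) hK0, one_mul] at hc
    exact hc
  have h2 : ((ρ ^ b) ^ c * K) ^ (l + 1) < ((q : ℝ) ^ c) ^ (l + 1) := by
    apply pow_lt_pow_left₀ h1 (by positivity) (by omega)
  rw [← pow_mul (q : ℝ) c] at h2
  refine lt_of_le_of_lt ?_ h2
  have h3 : ρ ^ (l + c * (l + 1) * b) = ρ ^ l * ((ρ ^ b) ^ c) ^ (l + 1) := by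
    rw [← pow_mul, ← pow_mul, ← pow_add]
    congr 1
    ring
  rw [h3, mul_pow]
  have h4 : 0 ≤ ((ρ ^ b) ^ c) ^ (l + 1) := by positivity
  have h5 : 2 * (C * ρ ^ l) ≤ K ^ (l + 1) := by
    have h6 : ρ ^ l ≤ K ^ l := pow_le_pow_left₀ hρ0 hK3 l
    have h7 : 0 ≤ ρ ^ l := pow_nonneg hρ0 l
    have h8 : C * ρ ^ l ≤ |C| * ρ ^ l := mul_le_mul_of_nonneg_right (le_abs_self C) h7
    have h9 : 2 * (|C| * ρ ^ l) ≤ (2 * |C| + 1) * ρ ^ l := by nlinarith
    have h10 : (2 * |C| + 1) * ρ ^ l ≤ K * K ^ l := by
      apply mul_le_mul hK2 h6 h7 (by linarith)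
    rw [pow_succ']
    linarith
  calc 2 * (C * (ρ ^ l * ((ρ ^ b) ^ c) ^ (l + 1))) = 2 * (C * ρ ^ l) * ((ρ ^ b) ^ c) ^ (l + 1) := by ring
    _ ≤ K ^ (l + 1) * ((ρ ^ b) ^ c) ^ (l + 1) := mul_le_mul_of_nonneg_right h5 h4
    _ = ((ρ ^ b) ^ c) ^ (l + 1) * K ^ (l + 1) := by ring

attribute [local irreducible] pad cnt

/-- **Self correction by padding.** -/
theorem correct [Finite α] {S : List α → Prop} {A : List α → Bool} {L : List (List α)} {b : ℕ}
    {C ρ : ℝ} (hA : Computable A) (hL : L.Nodup) (hb : ∀ t ∈ L, t.length = b)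
    (hS : ∀ w, ∀ t ∈ L, (S (w ++ t) ↔ S w)) (hρ0 : 0 ≤ ρ) (hρ : ρ ^ b < L.length)
    (herr : ∀ N, ({u : List α | u.length = N ∧ ¬ (A u = true ↔ S u)}.ncard : ℝ) ≤ C * ρ ^ N) :
    ComputablePred S := by
  classical
  have hq : (0 : ℝ) < L.length := lt_of_le_of_lt (pow_nonneg hρ0 b) hρ
  have h0 : 0 < L.length := by exact_mod_cast hq
  obtain ⟨c, hc⟩ := exists_c (C := C) hρ0 hρ
  have key : ∀ w : List α, (L.length ^ (c * (w.length + 1)) <
      2 * cnt (fun k => A (w ++ pad L (c * (w.length + 1)) k)) (L.length ^ (c * (w.length + 1)))) ↔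
      S w := by
    intro w
    set j := c * (w.length + 1) with hj
    obtain ⟨W, hW⟩ : ∃ W, W = (Finset.range (L.length ^ j)).filter
      (fun k => A (w ++ pad L j k) ≠ decide (S w)) := ⟨_, rfl⟩
    have hlen : ∀ k, (w ++ pad L j k).length = w.length + j * b := by
      intro k
      rw [List.length_append]
      congr 1
      unfold pad
      exact flat_length (fun s => hb _ (block_mem h0 k s)) j
    have g1 : (W.card : ℝ) ≤ C * ρ ^ (w.length + j * b) := by
      refine le_trans ?_ (herr (w.length + j * b))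
      have h3 : Set.InjOn (fun k => w ++ pad L j k) (W : Set ℕ) := by
        intro k hk k' hk' hkk
        rw [hW, Finset.mem_coe, Finset.mem_filter, Finset.mem_range] at hk hk'
        exact pad_inj h0 hL hb hk.1 hk'.1 (List.append_cancel_left hkk)
      rw [← Set.ncard_coe_finset, ← Set.ncard_image_of_injOn h3]
      have h4 : (fun k => w ++ pad L j k) '' (W : Set ℕ) ⊆
          {u : List α | u.length = w.length + j * b ∧ ¬ (A u = true ↔ S u)} := by
        rintro _ ⟨k, hk, rfl⟩
        rw [hW, Finset.mem_coe, Finset.mem_filter, Finset.mem_range] at hk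
        refine ⟨hlen k, ?_⟩
        intro h4
        rw [pad_iff h0 hS] at h4
        apply hk.2
        rw [Bool.eq_iff_iff, decide_eq_true_eq]
        exact h4
      have h5 : {u : List α | u.length = w.length + j * b ∧ ¬ (A u = true ↔ S u)}.Finite :=
        (List.finite_length_eq α (w.length + j * b)).subset (fun u hu => hu.1)
      exact_mod_cast Set.ncard_le_ncard h4 h5
    have g2 : 2 * W.card < L.length ^ j := by
      have h6 := hc w.length
      rw [← hj] at h6
      have h7 : (2 * W.card : ℝ) < (L.length : ℝ) ^ j := by linarith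
      exact_mod_cast h7
    rw [hW] at g2
    exact (majority le_rfl g2).trans (by simp)
  have c1 : Computable (fun w : List α => L.length ^ (c * (w.length + 1))) := by
    have : Primrec (fun w : List α => L.length ^ (c * (w.length + 1))) := by fun_prop
    exact this.to_comp
  have c2 : Computable (fun x : List α × ℕ => A (x.1 ++ pad L (c * (x.1.length + 1)) x.2)) := by
    refine hA.comp ?_
    have h1 : Primrec (fun x : List α × ℕ => pad L (c * (x.1.length + 1)) x.2) :=
      (pad_primrec L).comp (by fun_prop : Primrec (fun x : List α × ℕ => (c * (x.1.length + 1), x.2)))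
    have h2 : Primrec (fun x : List α × ℕ => x.1 ++ pad L (c * (x.1.length + 1)) x.2) :=
      pappend (by fun_prop) h1
    exact h2.to_comp
  have c3 : Computable (fun w : List α => cnt (fun k => A (w ++ pad L (c * (w.length + 1)) k))
      (L.length ^ (c * (w.length + 1)))) :=
    cnt_comp (f := fun (w : List α) k => A (w ++ pad L (c * (w.length + 1)) k)) c2 c1
  have c4 : Computable (fun w : List α => decide (L.length ^ (c * (w.length + 1)) <
      2 * cnt (fun k => A (w ++ pad L (c * (w.length + 1)) k)) (L.length ^ (c * (w.length + 1))))) := by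
    have h2 : Primrec (fun x : ℕ × ℕ => decide (x.1 + 1 ≤ 2 * x.2)) := by fun_prop
    exact (h2.to_comp.comp (c1.pair c3)).of_eq fun p => rfl
  refine ⟨inferInstance, ?_⟩
  refine c4.of_eq fun w => ?_
  rw [Bool.eq_iff_iff, decide_eq_true_eq, decide_eq_true_eq]
  exact key w

end Pool.Agent.Q252.WC
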